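import Pool.Agent.H93NG.UAll

/-!
# Recursively enumerable families of context-free non-generators are bounded

Let `W` be a recursively enumerable set of grammars in Greibach normal form, each generating a
non-generator. Then some context-free non-generator lies above the closure, under rational
transductions and substitutions, of the linear languages and the languages of `W`. (For `W = ∅`
these are the quasi-rational languages.) Hence the cone of the context-free non-generators is
principal iff it lies in such a closure.
-/

namespace Pool.Agent.Results.MP_94383a_lc.EnumerableFamiliesBounded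

open Pool.Agent.H93NG

theorem result :
    (∀ W : Set GnfN, REPred (fun G => G ∈ W) → (∀ G ∈ W, NonGen G.lang) →
      ∃ (A : Type) (_ : Finite A) (L : Language A), L.IsContextFree ∧ NonGen L ∧
        ∀ (B : Type) (M : Language B),
          SubCl (fun _ M => IsLinear M ∨ ∃ G ∈ W, Dom G.lang M) B M → Dom L M) ∧
    ((∃ (A : Type) (_ : Finite A) (L : Language A), L.IsContextFree ∧ NonGen L ∧
        ∀ (B : Type) (_ : Finite B) (M : Language B), M.IsContextFree → NonGen M → Dom L M) ↔
      ∃ W : Set GnfN, REPred (fun G => G ∈ W) ∧ (∀ G ∈ W, NonGen G.lang) ∧
        ∀ (B : Type) (_ : Finite B) (M : Language B), M.IsContextFree → NonGen M →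
          SubCl (fun _ M => IsLinear M ∨ ∃ G ∈ W, Dom G.lang M) B M) :=
  ⟨fun W hW hN => exists_bound_all W hW hN, principal_iff_all⟩

end Pool.Agent.Results.MP_94383a_lc.EnumerableFamiliesBounded
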