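import Pool.Agent.NGP.Main
import Pool.Agent.H93NG.UAll

/-!
# No recursively enumerable family is cofinal in the cone of the context-free non-generators

Let `L` be a context-free non-generator and let `W` be a recursively enumerable set of grammars in
Greibach normal form, each generating a non-generator. Then some context-free non-generator lies
outside the closure, under rational transductions and substitutions, of the linear languages, the
language `L` and the languages of `W`. For `W = ∅`: no context-free non-generator `L` has all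
context-free non-generators in its cone, which is not principal.
-/

namespace Pool.Agent.Results.MP_94383a_lc.NoEnumerableCofinal

open Pool.Agent.H93NG

theorem re_or {α : Type} [Primcodable α] {p q : α → Prop} (hp : REPred p) (hq : REPred q) :
    REPred fun a => p a ∨ q a := by
  obtain ⟨k, hk, hk'⟩ := Partrec.merge hp hq (fun a x _ y _ => Subsingleton.elim x y)
  refine (Partrec.dom_re hk).of_eq fun a => ?_
  constructor
  · intro h
    obtain ⟨x, hx⟩ := Part.dom_iff_mem.1 h
    rcases (hk' a x).1 hx with h | h
    · exact Or.inl (Part.mem_assert_iff.1 h).1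
    · exact Or.inr (Part.mem_assert_iff.1 h).1
  · rintro (h | h)
    · exact Part.dom_iff_mem.2
        ⟨(), (hk' a ()).2 (Or.inl (Part.mem_assert_iff.2 ⟨h, Part.mem_some _⟩))⟩
    · exact Part.dom_iff_mem.2
        ⟨(), (hk' a ()).2 (Or.inr (Part.mem_assert_iff.2 ⟨h, Part.mem_some _⟩))⟩

theorem result (A : Type) (_ : Finite A) (L : Language A) (hL : L.IsContextFree) (hLN : NonGen L)
    (W : Set GnfN) (hW : REPred (fun G => G ∈ W)) (hN : ∀ G ∈ W, NonGen G.lang) :
    ∃ (B : Type) (_ : Finite B) (M : Language B), M.IsContextFree ∧ NonGen M ∧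
      ¬ SubCl (fun _ M => IsLinear M ∨ Dom L M ∨ ∃ G ∈ W, Dom G.lang M) B M := by
  by_contra hcon
  apply Pool.Agent.NGP.not_principal
  obtain ⟨n, G₀, hG1, hG2⟩ := exists_gnf_dom L hL
  have h0 : REPred fun H : GnfN => H = toN G₀ := by
    have h : PrimrecPred fun H : GnfN => H = toN G₀ :=
      Primrec.eq.comp Primrec.id (Primrec.const (toN G₀))
    exact h.computablePred.to_re
  obtain ⟨A', hA', L', h1, h2, h3⟩ := exists_bound_all {G | G ∈ W ∨ G = toN G₀} (re_or hW h0) (by
    rintro G (hG | rfl)
    · exact hN G hG
    · exact nonGen_toN G₀ (hG2 hLN))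
  refine ⟨A', hA', L', h1, h2, ?_⟩
  intro B hB M hM hMN
  apply h3 B M
  by_contra hS
  refine hcon ⟨B, hB, M, hM, hMN, fun hS' => hS (hS'.mono ?_)⟩
  rintro B' M' _ (h | h | ⟨G, hG, h⟩)
  · exact Or.inl h
  · exact Or.inr ⟨_, Or.inr rfl, dom_toN G₀ (hG1.trans h)⟩
  · exact Or.inr ⟨G, Or.inl hG, h⟩

end Pool.Agent.Results.MP_94383a_lc.NoEnumerableCofinal
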